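import Pool.Agent.W_7d29a1_h95g.TubeDet
import Pool.Agent.W_7d29a1_L.LsDefs

/-!
EDGE (helper72), deterministic part: the weight of the paths which go beyond `k` parallel lines
is at most the product of the largest point to point weights from line to line.
-/

namespace Pool.Agent.W_7d29a1_E72

open MeasureTheory ProbabilityTheory Filter Topology
open Pool.Agent.W_7d29a1_F Pool.Agent.W_7d29a1_h95g Pool.Agent.W_7d29a1_L

noncomputable section

variable {μ : Measure ℝ} {s : ℝ}

/-- The weight of the displacements from `a` to the level `a.1 + m`, with end position at least `c`. -/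
def Fr (μ : Measure ℝ) (s : ℝ) (η : Env) (a : Pt) (m : ℕ) (c : ℤ) : ℝ :=
  WS μ s η a m ((Finset.Icc (0 : ℤ) m).filter fun y => c ≤ a.2 + y)

theorem Fr_nonneg (η : Env) (a : Pt) (m : ℕ) (c : ℤ) : 0 ≤ Fr μ s η a m c := WS_nonneg _ _ _ _

theorem Fr_le_exp_V (η : Env) (a : Pt) (m : ℕ) (c : ℤ) : Fr μ s η a m c ≤ Real.exp (V μ s η a m) :=
  WS_le_exp_V _ _ _ _

theorem Fr_sh (η : Env) (a b : Pt) (m : ℕ) (c : ℤ) :
    Fr μ s (sh b η) a m c = Fr μ s η (a + b) m (c + b.2) := by
  unfold Fr WS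
  have e : ((Finset.Icc (0 : ℤ) m).filter fun y => c ≤ a.2 + y) =
      (Finset.Icc (0 : ℤ) m).filter fun y => c + b.2 ≤ (a + b).2 + y := by
    refine Finset.filter_congr fun y _ => ?_
    simp only [Prod.snd_add]
    omega
  rw [e]
  exact Finset.sum_congr rfl fun y _ => W_sh _ _ _ _ _

/-- A path from the left of a line to a site on the line or on its right visits the line. -/
theorem W_cross {l : ℤ → ℤ} (hl : IsLine l) (η : Env) {a : Pt} {m : ℕ} {y : ℤ} (ha : a.2 < l a.1)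
    (hb : l (a.1 + m) ≤ a.2 + y) :
    W μ s η a m y ≤ ∑ i ∈ Finset.range m, W μ s η a (i + 1) (l (a.1 + (i + 1)) - a.2) *
      W μ s η (a.1 + (i + 1), l (a.1 + (i + 1))) (m - (i + 1)) (y - (l (a.1 + (i + 1)) - a.2)) := by
  have hL : ExitAt {p : Pt | p.2 < l p.1} l := exitAt_left fun t => hl.lo t
  have h := exit_decomp hL Set.univ η (a := a) ha m y
  have h0 : Zr (Set.univ ∩ {p : Pt | p.2 < l p.1}) η a m y = 0 := by
    by_contra hne
    rcases mem_of_Zr_ne_zero hne with ⟨h1, h2⟩ | h1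
    · subst h1
      subst h2
      simp only [Nat.cast_zero, add_zero] at hb
      exact absurd ha (not_lt.2 hb)
    · have h2 := h1.2
      simp only [Set.mem_ofPred_eq] at h2
      exact absurd h2 (not_lt.2 hb)
  rw [h0, zero_add] at h
  unfold W WR
  rw [h, Finset.mul_sum]
  refine Finset.sum_le_sum fun i hi => ?_
  rw [Finset.mem_range] at hi
  have h1 : Fk Set.univ {p : Pt | p.2 < l p.1} l η a i ≤ Zr Set.univ η a (i + 1) (dk l a i) :=
    Zr_mono (Set.subset_univ _) _ _ _ _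
  have h2 : 0 ≤ Zr Set.univ η (bk l a i) (m - (i + 1)) (y - dk l a i) := Zr_nonneg _ _ _ _ _
  have e1 : Real.exp (s * y - m * lam μ s) =
      Real.exp (s * ((dk l a i : ℤ) : ℝ) - ((i + 1 : ℕ) : ℝ) * lam μ s) *
        Real.exp (s * ((y - dk l a i : ℤ) : ℝ) - ((m - (i + 1) : ℕ) : ℝ) * lam μ s) := by
    rw [← Real.exp_add]
    congr 1
    push_cast [Nat.cast_sub (show i + 1 ≤ m by omega)]
    ring
  rw [e1]
  have e2 : (bk l a i : Pt) = (a.1 + (i + 1), l (a.1 + (i + 1))) := rfl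
  have e3 : dk l a i = l (a.1 + (i + 1)) - a.2 := rfl
  rw [e2, e3] at *
  have h3 := mul_le_mul_of_nonneg_right h1 h2
  calc _ ≤ Real.exp (s * ((l (a.1 + (i + 1)) - a.2 : ℤ) : ℝ) - ((i + 1 : ℕ) : ℝ) * lam μ s) *
        Real.exp (s * ((y - (l (a.1 + (i + 1)) - a.2) : ℤ) : ℝ) - ((m - (i + 1) : ℕ) : ℝ) * lam μ s) *
        (Zr Set.univ η a (i + 1) (l (a.1 + (i + 1)) - a.2) *
          Zr Set.univ η (a.1 + (i + 1), l (a.1 + (i + 1))) (m - (i + 1)) (y - (l (a.1 + (i + 1)) - a.2))) :=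
        mul_le_mul_of_nonneg_left h3 (by positivity)
    _ = _ := by ring

/-- The same for the weights of all ends beyond a position which is not to the left of the line. -/
theorem Fr_cross {l : ℤ → ℤ} (hl : IsLine l) (η : Env) {a : Pt} {m : ℕ} {c : ℤ} (ha : a.2 < l a.1)
    (hb : l (a.1 + m) ≤ c) :
    Fr μ s η a m c ≤ ∑ i ∈ Finset.range m, W μ s η a (i + 1) (l (a.1 + (i + 1)) - a.2) *
      Fr μ s η (a.1 + (i + 1), l (a.1 + (i + 1))) (m - (i + 1)) c := by
  unfold Fr WS
  calc _ ≤ ∑ y ∈ (Finset.Icc (0 : ℤ) m).filter (fun y => c ≤ a.2 + y), ∑ i ∈ Finset.range m,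
        W μ s η a (i + 1) (l (a.1 + (i + 1)) - a.2) *
        W μ s η (a.1 + (i + 1), l (a.1 + (i + 1))) (m - (i + 1)) (y - (l (a.1 + (i + 1)) - a.2)) := by
        refine Finset.sum_le_sum fun y hy => ?_
        rw [Finset.mem_filter] at hy
        exact W_cross hl η ha (hb.trans hy.2)
    _ = ∑ i ∈ Finset.range m, W μ s η a (i + 1) (l (a.1 + (i + 1)) - a.2) *
        ∑ y ∈ (Finset.Icc (0 : ℤ) m).filter (fun y => c ≤ a.2 + y),
        W μ s η (a.1 + (i + 1), l (a.1 + (i + 1))) (m - (i + 1)) (y - (l (a.1 + (i + 1)) - a.2)) := by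
        rw [Finset.sum_comm]
        refine Finset.sum_congr rfl fun i _ => ?_
        rw [Finset.mul_sum]
    _ ≤ _ := by
        refine Finset.sum_le_sum fun i hi => mul_le_mul_of_nonneg_left ?_ (W_nonneg _ _ _ _)
        obtain ⟨δ, hδ⟩ : ∃ δ : ℤ, δ = l (a.1 + (i + 1)) - a.2 := ⟨_, rfl⟩
        rw [← hδ]
        have h1 : ∑ y ∈ (Finset.Icc (0 : ℤ) m).filter (fun y => c ≤ a.2 + y),
            W μ s η (a.1 + (i + 1), l (a.1 + (i + 1))) (m - (i + 1)) (y - δ) =
            ∑ y ∈ ((Finset.Icc (0 : ℤ) m).filter (fun y => c ≤ a.2 + y)).image (fun y => y - δ),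
            W μ s η (a.1 + (i + 1), l (a.1 + (i + 1))) (m - (i + 1)) y := by
          rw [Finset.sum_image]
          intro x _ x' _ hx
          simpa using hx
        rw [h1]
        have h2 : ∀ y ∈ ((Finset.Icc (0 : ℤ) m).filter (fun y => c ≤ a.2 + y)).image (fun y => y - δ),
            W μ s η (a.1 + (i + 1), l (a.1 + (i + 1))) (m - (i + 1)) y ≠ 0 →
              0 ≤ y ∧ y ≤ ((m - (i + 1) : ℕ) : ℤ) := by
          intro y _ hne
          by_contra hcon
          exact hne (W_eq_zero _ _ hcon)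
        rw [← Finset.sum_filter_of_ne h2]
        refine Finset.sum_le_sum_of_subset_of_nonneg ?_ fun y _ _ => W_nonneg _ _ _ _
        intro y hy
        rw [Finset.mem_filter, Finset.mem_image] at hy
        obtain ⟨⟨z, hz, hzy⟩, h3, h4⟩ := hy
        rw [Finset.mem_filter, Finset.mem_Icc] at hz
        rw [Finset.mem_filter, Finset.mem_Icc]
        refine ⟨⟨h3, h4⟩, ?_⟩
        show c ≤ l (a.1 + (i + 1)) + y
        have := hz.2
        omega

end

end Pool.Agent.W_7d29a1_E72
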